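import Pool.Agent.Y298.GA.RatStm

/-!
# GA-RSHE: volume by averaging over shears
-/

set_option autoImplicit false

open Set Filter Metric MeasureTheory Topology

namespace Pool.Agent.Y275.GA

open Pool.Agent.Y298.GA

/-- the space of the coefficients -/
abbrev E (d : ℕ) : Type := (Fin d → ℂ) × (Fin (d + 1) → ℂ)

theorem cont_ev (d : ℕ) : Continuous (ev : (Fin d → ℂ) → Fin (d + 1) → ℂ) := by
  refine continuous_pi fun i => ?_
  refine Fin.cases ?_ (fun j => ?_) i
  · exact continuous_const
  · exact continuous_apply j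

theorem norm_ev {d : ℕ} (b : Fin d → ℂ) (hb : ‖b‖ ≤ 1) : ‖ev b‖ ≤ 1 := by
  rw [pi_norm_le_iff_of_nonneg zero_le_one]
  intro i
  refine Fin.cases ?_ (fun j => ?_) i
  · change ‖(1 : ℂ)‖ ≤ 1
    simp
  · exact (norm_le_pi_norm b j).trans hb

/-- the shear -/
def T (d : ℕ) (t : ℂ) (x : E d) : E d := (x.1, x.2 + t • ev x.1)

theorem cont_T (d : ℕ) : Continuous (fun p : ℂ × E d => T d p.1 p.2) := by
  unfold T
  have h1 : Continuous (fun p : ℂ × E d => ev p.2.1) :=
    (cont_ev d).comp (continuous_fst.comp continuous_snd)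
  fun_prop

theorem mp_T (d : ℕ) (t : ℂ) : MeasurePreserving (T d t) volume volume := by
  rw [Measure.volume_eq_prod]
  refine MeasurePreserving.skew_product (μa := (volume : Measure (Fin d → ℂ)))
    (μb := (volume : Measure (Fin d → ℂ))) (μc := (volume : Measure (Fin (d + 1) → ℂ)))
    (μd := (volume : Measure (Fin (d + 1) → ℂ))) (f := fun b : Fin d → ℂ => b)
    (g := fun b a => a + t • ev b) (MeasurePreserving.id _) ?_ ?_
  · have h1 : Continuous (fun p : (Fin d → ℂ) × (Fin (d + 1) → ℂ) => ev p.1) :=
      (cont_ev d).comp continuous_fst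
    have h2 : Continuous (fun p : (Fin d → ℂ) × (Fin (d + 1) → ℂ) => p.2 + t • ev p.1) := by
      fun_prop
    exact h2.measurable
  · exact Filter.Eventually.of_forall fun b =>
      (measurePreserving_add_right (volume : Measure (Fin (d + 1) → ℂ)) (t • ev b)).map_eq

theorem finrank_E (d : ℕ) : Module.finrank ℝ (E d) = 2 * (2 * d + 1) := by
  rw [Module.finrank_prod, Module.finrank_pi_fintype, Module.finrank_pi_fintype]
  simp only [Complex.finrank_real_complex, Finset.sum_const, Finset.card_univ, Fintype.card_fin,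
    smul_eq_mul]
  ring

theorem rshe : S_RSHE := by
  intro d B r S hB hr hr1 hS hBr hvol
  let D : Set (ℂ × E d) := {p | ‖p.1‖ ≤ r ∧ T d p.1 p.2 ∈ B}
  have hD : MeasurableSet D := by
    have h1 : MeasurableSet {p : ℂ × E d | ‖p.1‖ ≤ r} :=
      (isClosed_le (by fun_prop) continuous_const).measurableSet
    have h2 : MeasurableSet {p : ℂ × E d | T d p.1 p.2 ∈ B} := (cont_T d).measurable hB
    exact h1.inter h2
  have e1 : (volume : Measure (ℂ × E d)) D = volume B * volume (closedBall (0 : ℂ) r) := by
    rw [Measure.volume_eq_prod, Measure.prod_apply hD]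
    have h1 : ∀ t : ℂ, volume (Prod.mk t ⁻¹' D) =
        (closedBall (0 : ℂ) r).indicator (fun _ => volume B) t := by
      intro t
      by_cases ht : ‖t‖ ≤ r
      · rw [Set.indicator_of_mem (by simpa using ht)]
        have h2 : Prod.mk t ⁻¹' D = T d t ⁻¹' B := by
          ext x
          simp [D, ht]
        rw [h2]
        exact (mp_T d t).measure_preimage hB.nullMeasurableSet
      · rw [Set.indicator_of_notMem (by simpa using ht)]
        have h2 : Prod.mk t ⁻¹' D = ∅ := by
          ext x
          simp [D, ht]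
        rw [h2, measure_empty]
    rw [lintegral_congr h1, lintegral_indicator isClosed_closedBall.measurableSet,
      setLIntegral_const]
  have e2 : (volume : Measure (ℂ × E d)) D ≤
      ENNReal.ofReal S * volume (closedBall (0 : E d) (2 * r)) := by
    rw [Measure.volume_eq_prod, Measure.prod_apply_symm hD]
    have h1 : ∀ x : E d, volume ((fun t : ℂ => (t, x)) ⁻¹' D) ≤
        (closedBall (0 : E d) (2 * r)).indicator (fun _ => ENNReal.ofReal S) x := by
      intro x
      by_cases hx : ‖x‖ ≤ 2 * r
      · rw [Set.indicator_of_mem (by simpa using hx)]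
        exact hvol x hx
      · rw [Set.indicator_of_notMem (by simpa using hx)]
        have h2 : (fun t : ℂ => (t, x)) ⁻¹' D = ∅ := by
          rw [Set.eq_empty_iff_forall_notMem]
          rintro t ⟨ht, htB⟩
          apply hx
          have h3 := hBr htB
          rw [mem_closedBall_zero_iff] at h3
          have h4 : ‖x.1‖ ≤ r := (norm_fst_le (T d t x)).trans h3
          have h5 : ‖x.2 + t • ev x.1‖ ≤ r := (norm_snd_le (T d t x)).trans h3
          have h6 := norm_ev x.1 (h4.trans hr1)
          have h7 : ‖t • ev x.1‖ ≤ r := by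
            rw [norm_smul]
            have ht' : ‖t‖ ≤ r := ht
            calc ‖t‖ * ‖ev x.1‖ ≤ r * 1 := mul_le_mul ht' h6 (norm_nonneg _) hr.le
              _ = r := mul_one r
          have h8 : ‖x.2‖ ≤ 2 * r := by
            have h9 : x.2 = (x.2 + t • ev x.1) - t • ev x.1 := by abel
            rw [h9]
            refine (norm_sub_le _ _).trans ?_
            linarith
          rw [Prod.norm_def]
          exact max_le (by linarith) h8
        rw [h2, measure_empty]
    refine (lintegral_mono h1).trans ?_
    rw [lintegral_indicator isClosed_closedBall.measurableSet, setLIntegral_const]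
  have e3 : volume (closedBall (0 : E d) (2 * r)) =
      ENNReal.ofReal (4 ^ (2 * d + 1)) * volume (closedBall (0 : E d) r) := by
    have hH : (volume : Measure (E d)).IsAddHaarMeasure :=
      Measure.prod.instIsAddHaarMeasure _ _
    have h1 := Measure.addHaar_closedBall_mul (volume : Measure (E d)) 0 (zero_le_two (α := ℝ)) hr.le
    rw [h1, finrank_E, pow_mul]
    norm_num
  have e4 : volume (closedBall (0 : ℂ) r) = ENNReal.ofReal (Real.pi * r ^ 2) := by
    rw [Complex.volume_closedBall, ENNReal.ofReal_mul Real.pi_pos.le, ENNReal.ofReal_pow hr.le,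
      mul_comm]
    congr 1
    rw [← NNReal.coe_real_pi, ENNReal.ofReal_coe_nnreal]
  have hpos : 0 < Real.pi * r ^ 2 := by positivity
  rw [e1, e4, e3] at e2
  have h0 : ENNReal.ofReal (Real.pi * r ^ 2) ≠ 0 := by
    rw [ENNReal.ofReal_ne_zero_iff]
    exact hpos
  have h1 : volume B ≤ ENNReal.ofReal S * (ENNReal.ofReal (4 ^ (2 * d + 1)) *
      volume (closedBall (0 : E d) r)) / ENNReal.ofReal (Real.pi * r ^ 2) := by
    rw [ENNReal.le_div_iff_mul_le (Or.inl h0) (Or.inl ENNReal.ofReal_ne_top)]
    exact e2
  refine h1.trans (le_of_eq ?_)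
  rw [ENNReal.ofReal_div_of_pos hpos,
    ENNReal.ofReal_mul (p := (4 : ℝ) ^ (2 * d + 1)) (q := S) (by positivity), div_eq_mul_inv,
    div_eq_mul_inv]
  ring

end Pool.Agent.Y275.GA
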